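import Pool.Agent.helper33.SP.SpecC1S

/-!
# Project sp, piece C1, module UJ3: spectral identity for hits and misses
-/

namespace TP

open DP MeasureTheory

noncomputable section

open Classical in
theorem UJ3_av (h2 : UJ2_stmt) (W : Set V) (s : Finset (Finset V)) (a : Finset V → ℝ) :
    av W (fun b => ∑ T ∈ s, a T * chr T b) =
      fun b => ∑ T ∈ s, (if ∀ v ∈ T, v ∉ W then a T else 0) * chr T b := by
  funext b
  rw [h2.2.2.2 W s a b]
  refine Finset.sum_congr rfl fun T _ => ?_
  rw [h2.2.1 W T b]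
  split_ifs <;> simp

open Classical in
theorem UJ3_dl (h2 : UJ2_stmt) (W : Set V) (s : Finset (Finset V)) (a : Finset V → ℝ) :
    dl W (fun b => ∑ T ∈ s, a T * chr T b) =
      fun b => ∑ T ∈ s, (if ∃ v ∈ T, v ∈ W then a T else 0) * chr T b := by
  funext b
  unfold dl
  rw [UJ3_av h2]
  simp only []
  rw [← Finset.sum_sub_distrib]
  refine Finset.sum_congr rfl fun T _ => ?_
  by_cases h : ∃ v ∈ T, v ∈ W
  · have h' : ¬ ∀ v ∈ T, v ∉ W := by
      push Not
      exact h
    rw [if_pos h, if_neg h']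
    ring
  · have h' : ∀ v ∈ T, v ∉ W := by
      push Not at h
      exact h
    rw [if_neg h, if_pos h']
    ring

open Classical in
theorem UJ3_dls (h2 : UJ2_stmt) (U : ℕ → Set V) (s : Finset (Finset V)) (J : ℕ) :
    ∀ a : Finset V → ℝ, dls U J (fun b => ∑ T ∈ s, a T * chr T b) =
      fun b => ∑ T ∈ s, (if ∀ l < J, ∃ v ∈ T, v ∈ U l then a T else 0) * chr T b := by
  induction J with
  | zero =>
    intro a
    funext b
    refine Finset.sum_congr rfl fun T _ => ?_
    rw [if_pos (by intro l hl; omega)]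
  | succ J ih =>
    intro a
    change dls U J (dl (U J) (fun b => ∑ T ∈ s, a T * chr T b)) = _
    rw [UJ3_dl h2, ih]
    funext b
    refine Finset.sum_congr rfl fun T _ => ?_
    congr 1
    rw [← ite_and]
    refine if_congr ?_ rfl rfl
    constructor
    · rintro ⟨h1, h3⟩ l hl
      rcases Nat.lt_succ_iff_lt_or_eq.1 hl with h | h
      · exact h1 l h
      · rw [h]
        exact h3
    · intro h
      exact ⟨fun l hl => h l (by omega), h J (by omega)⟩

theorem UJ3_abs (T : Finset V) (b : V → Bool) : |chr T b| ≤ 1 := by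
  unfold chr
  rw [Finset.abs_prod]
  refine Finset.prod_le_one (fun _ _ => abs_nonneg _) fun v _ => ?_
  unfold sg
  split_ifs <;> simp

theorem UJ3_meas (T : Finset V) : Measurable (chr T) := by
  unfold chr
  refine Finset.measurable_prod _ fun v _ => ?_
  exact (measurable_of_countable sg).comp (measurable_pi_apply v)

theorem UJ3_int (T T' : Finset V) : Integrable (fun b => chr T b * chr T' b) P1 := by
  haveI : IsProbabilityMeasure P1 := by
    unfold P1
    infer_instance
  refine Integrable.of_bound ((UJ3_meas T).mul (UJ3_meas T')).aestronglyMeasurable 1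
    (Filter.Eventually.of_forall fun b => ?_)
  rw [Real.norm_eq_abs, abs_mul]
  exact mul_le_one₀ (UJ3_abs T b) (abs_nonneg _) (UJ3_abs T' b)

theorem UJ3_sq (h2 : UJ2_stmt) (s : Finset (Finset V)) (c : Finset V → ℝ) :
    ∫ b, (∑ T ∈ s, c T * chr T b) ^ 2 ∂P1 = ∑ T ∈ s, c T ^ 2 := by
  classical
  have e1 : ∀ b : V → Bool, (∑ T ∈ s, c T * chr T b) ^ 2 =
      ∑ T ∈ s, ∑ T' ∈ s, c T * c T' * (chr T b * chr T' b) := by
    intro b
    rw [sq, Finset.sum_mul_sum]
    refine Finset.sum_congr rfl fun T _ => Finset.sum_congr rfl fun T' _ => by ring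
  simp only [e1]
  rw [integral_finsetSum _ fun T _ => integrable_finsetSum _ fun T' _ =>
    (UJ3_int T T').const_mul _]
  refine Finset.sum_congr rfl fun T hT => ?_
  rw [integral_finsetSum _ fun T' _ => (UJ3_int T T').const_mul _]
  rw [Finset.sum_eq_single T]
  · rw [integral_const_mul, h2.1 T T, if_pos rfl]
    ring
  · intro T' _ hne
    rw [integral_const_mul, h2.1 T T', if_neg (Ne.symm hne), mul_zero]
  · intro h
    exact absurd hT h

theorem UJ3 (h1 : UJ1_stmt) (h2 : UJ2_stmt) : UJ3_stmt := by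
  classical
  intro F Λ W U J hF
  have e0 : pmf F = fun b => ∑ T ∈ Λ.powerset, fh F T * chr T b := funext fun b => h1 F Λ hF b
  rw [e0, UJ3_dls h2, UJ3_av h2, UJ3_sq h2]
  unfold PSF
  refine Finset.sum_congr rfl fun T _ => ?_
  by_cases hW : ∀ v ∈ T, v ∉ W
  · by_cases hU : ∀ l < J, ∃ v ∈ T, v ∈ U l
    · rw [if_pos hW, if_pos hU, if_pos]
      exact ⟨hW, hU⟩
    · rw [if_pos hW, if_neg hU, if_neg]
      · ring
      · exact fun h => hU h.2
  · rw [if_neg hW, if_neg]
    · ring
    · exact fun h => hW h.1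

end

end TP
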