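import Pool.Agent.helper33.SP.SpecC2S

/-!
# Project sp, module VA18: gates with standard arms, bounded ratio
-/

set_option autoImplicit false

namespace TP

open DP MeasureTheory

theorem VA18_sd_zpt (x : V) (r l : ℕ) : sd x (zpt x r l) = r := by
  unfold zpt sd
  split_ifs <;> simp

theorem VA18_ok (x : V) (a i : ℕ) (h : a + 1 ≤ i) : (Dmark 4 x (2 ^ a)).ok true x (2 ^ i) := by
  have h1 : 2 * 2 ^ a ≤ 2 ^ i := by
    calc 2 * 2 ^ a = 2 ^ (a + 1) := by ring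
      _ ≤ 2 ^ i := Nat.pow_le_pow_right (by norm_num) h
  unfold Dat.ok Dmark
  rw [if_pos rfl]
  constructor
  · intro l p hp
    have h2 : sd x p = 2 ^ a := hp.1
    change sd x p ≤ 2 ^ i
    omega
  · rintro k v (hv | ⟨l, -, -, hv⟩)
    · have h2 : sd x v < 2 ^ a := hv
      change sd x v ≤ 2 ^ i
      omega
    · have h2 := sd_triangle x (zpt x (2 ^ a) l) v
      rw [VA18_sd_zpt] at h2
      change sd x v ≤ 2 ^ i
      omega

theorem VA18 (hGSB : K.GSB_stmt) (hSX : K.SX1_stmt) (hGB : K.GB_stmt) (hBTH : K.BTH_stmt)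
    (hQAA : K.QAA_stmt) (hUI7 : UI7_stmt) (hWB : K.WB_stmt) (hLG : K.LG_stmt)
    (hLQ : K.LQ_stmt) : VA18_stmt := by
  obtain ⟨cg, hcg, g₀, i₁, hG⟩ := hGSB
  obtain ⟨c₁, hc₁, i₂, hS⟩ := hSX
  obtain ⟨c₄, hc₄, i₃, hB⟩ := hGB
  obtain ⟨C, hC, i₄, hBT⟩ := hBTH
  obtain ⟨-, -, -, A, k₀, hA, hlow, -⟩ := hQAA
  obtain ⟨w1, -, -, -, -, w6, -, w8⟩ := hWB
  obtain ⟨-, -, hB4, -⟩ := hLQ
  obtain ⟨g, hg⟩ : ∃ g, g = max g₀ 1 := ⟨_, rfl⟩
  have hg1 : 1 ≤ g := hg ▸ le_max_right _ _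
  have hg0 : g₀ ≤ g := hg ▸ le_max_left _ _
  have hApos : ∀ m : ℕ, 0 < A ^ (m + 1) := fun m => pow_pos (by linarith) _
  have hF : ∀ (z : V) (a m : ℕ), (z.1 + z.2) % 2 = 0 → k₀ ≤ a →
      (A ^ (m + 1))⁻¹ ≤ Pr (F4 z a (a + m)) := by
    intro z a m hz ha
    have h1 := hlow a m ha
    have h2 : Pr (F4 z a (a + m)) = a4 a (a + m) := (hUI7.2 z (2 ^ a) (2 ^ (a + m)) hz).1
    rw [h2, inv_le_iff_one_le_mul₀ (hApos m)]
    exact h1
  refine ⟨min (c₁ ^ 4 * (cg * (A ^ (g + 1))⁻¹))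
    (c₄ * ((C⁻¹ * (A ^ (5 + 1))⁻¹) * (cg * (A ^ (g + 1))⁻¹))), g,
    g + i₁ + i₂ + i₃ + i₄ + k₀ + 10, ?_, hg1, ?_⟩
  · have := hApos g
    have := hApos 5
    positivity
  intro z p hz hp
  have hze : Even (z.1 + z.2) := Int.even_iff.2 hz
  constructor
  · refine (min_le_left _ _).trans ?_
    obtain ⟨q, hq⟩ : ∃ q, p = q + g + 2 := ⟨p - g - 2, by omega⟩
    have e1 : p - g - 1 = q + 1 := by omega
    have e2 : p - 1 = q + 1 + g := by omega
    have e3 : p - g - 2 = q := by omega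
    rw [gIn, e1, e2, e3]
    have h0 := hG z (q + 1) (q + 1 + g) hze (by omega) (by omega)
    have e4 : q + 1 + g + 1 = p := by omega
    have e5 : q + 1 - 1 = q := by omega
    rw [e4, e5] at h0
    have hloc : ∀ i, q + 1 + g ≤ i → Loc (Ev fun c => Gate c z (2 ^ (q + 1)) (2 ^ (q + 1 + g)))
        (box z (2 ^ i)) := by
      intro i hi
      obtain ⟨Λ, h1, h2⟩ := (hLG z (q + 1) (q + 1 + g)).1
      refine ⟨Λ, fun v hv => ?_, h2⟩
      have h3 := (h1 hv).2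
      change sd z v ≤ 2 ^ i
      exact h3.trans (Nat.pow_le_pow_right (by norm_num) hi)
    have hstep : ∀ i, p ≤ i → c₁ * Pr ((Ev fun c => Gate c z (2 ^ (q + 1)) (2 ^ (q + 1 + g))) ∩
        B4 z q i) ≤ Pr ((Ev fun c => Gate c z (2 ^ (q + 1)) (2 ^ (q + 1 + g))) ∩
        B4 z q (i + 1)) := by
      intro i hi
      exact hS z (Dmark 4 z (2 ^ q)) _ i hze (by omega) (VA18_ok z q (i - 1) (by omega))
        (hloc (i - 1) (by omega))
    have s1 := hstep p (by omega)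
    have s2 := hstep (p + 1) (by omega)
    have s3 := hstep (p + 2) (by omega)
    have s4 := hstep (p + 3) (by omega)
    have f1 := hF z (q + 1) g hz (by omega)
    have t0 : cg * (A ^ (g + 1))⁻¹ ≤
        Pr ((Ev fun c => Gate c z (2 ^ (q + 1)) (2 ^ (q + 1 + g))) ∩ B4 z q p) :=
      (mul_le_mul_of_nonneg_left f1 hcg.le).trans h0
    calc c₁ ^ 4 * (cg * (A ^ (g + 1))⁻¹)
        = c₁ * (c₁ * (c₁ * (c₁ * (cg * (A ^ (g + 1))⁻¹)))) := by ring
      _ ≤ c₁ * (c₁ * (c₁ * (c₁ * Pr ((Ev fun c => Gate c z (2 ^ (q + 1))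
          (2 ^ (q + 1 + g))) ∩ B4 z q p)))) := by gcongr
      _ ≤ c₁ * (c₁ * (c₁ * Pr ((Ev fun c => Gate c z (2 ^ (q + 1))
          (2 ^ (q + 1 + g))) ∩ B4 z q (p + 1)))) := by gcongr
      _ ≤ c₁ * (c₁ * Pr ((Ev fun c => Gate c z (2 ^ (q + 1))
          (2 ^ (q + 1 + g))) ∩ B4 z q (p + 2))) := by gcongr
      _ ≤ c₁ * Pr ((Ev fun c => Gate c z (2 ^ (q + 1))
          (2 ^ (q + 1 + g))) ∩ B4 z q (p + 3)) := by gcongr
      _ ≤ _ := s4
  · refine (min_le_right _ _).trans ?_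
    have e1 : p + 14 + 1 = p + 15 := rfl
    have e2 : p + 14 + g + 1 = p + 15 + g := by omega
    have e3 : p + 14 + g + 2 = p + 15 + g + 1 := by omega
    rw [gOut, e1, e2, e3]
    set Y : Set (V → Bool) := Ev fun c => Gate c z (2 ^ (p + 15)) (2 ^ (p + 15 + g)) with hY
    have h0 := hG z (p + 15) (p + 15 + g) hze (by omega) (by omega)
    have e4 : p + 15 - 1 = p + 14 := by omega
    rw [e4, ← hY] at h0
    have f1 := hF z (p + 15) g hz (by omega)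
    have t1 : cg * (A ^ (g + 1))⁻¹ ≤ Pr (Y ∩ B4 z (p + 14) (p + 15 + g + 1)) :=
      (mul_le_mul_of_nonneg_left f1 hcg.le).trans h0
    have h2 := hBT z (p + 7) (p + 12) hze (by omega) (by omega)
    have e5 : p + 7 - 1 = p + 6 := by omega
    rw [e5] at h2
    have f2 : (A ^ (5 + 1))⁻¹ ≤ Pr (F4 z (p + 7) (p + 12)) := hF z (p + 7) 5 hz (by omega)
    have t2 : C⁻¹ * (A ^ (5 + 1))⁻¹ ≤ Pr (B4 z (p + 6) (p + 13)) := by
      rw [inv_mul_le_iff₀ hC]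
      exact f2.trans h2
    have hYloc : Loc Y (ann z (2 ^ (p + 12 + 3)) (2 ^ (p + 15 + g + 1))) := by
      obtain ⟨Λ, h1, h3⟩ := (hLG z (p + 15) (p + 15 + g)).1
      refine ⟨Λ, fun v hv => ?_, h3⟩
      have h4 := h1 hv
      exact ⟨h4.1, h4.2.trans (Nat.pow_le_pow_right (by norm_num) (by omega))⟩
    have h8 := w8 Y (B4 z (p + 14) (p + 15 + g + 1)) _ _ 1 hYloc
      (hB4 z (p + 14) (p + 15 + g + 1) (by omega))
    have h9 := w8 Y (B4 z (p + 6) (p + 15 + g + 1)) _ _ 1 hYloc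
      (hB4 z (p + 6) (p + 15 + g + 1) (by omega))
    have h3 := hB z (fun _ => 1) (Y.indicator fun _ => 1) (p + 6) (p + 12) (p + 15 + g + 1) hze
      (by omega) (by omega) (by omega) (w6 1 _) h8.1 (fun _ => zero_le_one)
      (fun b => Set.indicator_nonneg (fun _ _ => zero_le_one) b)
    simp only [one_mul] at h3 h8 h9
    rw [w1, h8.2, h9.2] at h3
    refine le_trans ?_ h3
    refine mul_le_mul_of_nonneg_left ?_ hc₄.le
    have n1 : 0 ≤ cg * (A ^ (g + 1))⁻¹ := by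
      have := hApos g
      positivity
    exact mul_le_mul t2 t1 n1 (measureReal_nonneg)

end TP
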