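import Pool.Agent.helper2.SP.SpecTA

/-!
# Project sp, part TA, module TA6: independence of the representative
-/

set_option autoImplicit false

namespace TP.TA

open DP MeasureTheory

/-- one of the three pairings of four different points of a circle alternates -/
theorem TA6_tri (hPO : PO_stmt) (x : V) (n : ℕ) (a b c d : V) (hn : 1 ≤ n) (ha : a ∈ bd x n)
    (hb : b ∈ bd x n) (hc : c ∈ bd x n) (hd : d ∈ bd x n) (hab : a ≠ b) (hac : a ≠ c)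
    (had : a ≠ d) (hbc : b ≠ c) (hbd : b ≠ d) (hcd : c ≠ d) :
    alt x n a c b d ∨ alt x n a b c d ∨ alt x n a b d c := by
  have e : ∀ u v : V, u ∈ bd x n → v ∈ bd x n → u ≠ v → pos x n u ≠ pos x n v :=
    fun u v hu hv h h' => h (hPO.2.1 x n u v hn hu hv h')
  have h1 := e a b ha hb hab
  have h2 := e a c ha hc hac
  have h3 := e a d ha hd had
  have h4 := e b c hb hc hbc
  have h5 := e b d hb hd hbd
  have h6 := e c d hc hd hcd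
  have n1 : [a, c, b, d].Nodup := by simp [hab, hac, had, hbc.symm, hbd, hcd]
  have n2 : [a, b, c, d].Nodup := by simp [hab, hac, had, hbc, hbd, hcd]
  have n3 : [a, b, d, c].Nodup := by simp [hab, hac, had, hbc, hbd, hcd.symm]
  simp only [alt, onArc, ha, hb, hc, hd, n1, n2, n3, true_and]
  split_ifs <;> omega

/-- two pairings cannot alternate at the same time -/
theorem TA6_excl (hPO : PO_stmt) (x : V) (n : ℕ) (a b c d : V) (hn : 1 ≤ n)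
    (h : alt x n a c b d) (h' : alt x n a b c d ∨ alt x n a b d c) : False := by
  obtain ⟨⟨ha, hc, hb, hd⟩, hnd, hal⟩ := h
  simp only [List.nodup_cons, List.mem_cons, List.not_mem_nil, or_false, not_or,
    not_false_eq_true, List.nodup_nil, and_true] at hnd
  obtain ⟨⟨hac, hab, had⟩, ⟨hcb, hcd⟩, hbd⟩ := hnd
  have e : ∀ u v : V, u ∈ bd x n → v ∈ bd x n → u ≠ v → pos x n u ≠ pos x n v :=
    fun u v hu hv h h' => h (hPO.2.1 x n u v hn hu hv h')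
  have h1 := e a b ha hb hab
  have h2 := e a c ha hc hac
  have h3 := e a d ha hd had
  have h4 := e c b hc hb hcb
  have h5 := e b d hb hd hbd
  have h6 := e c d hc hd hcd
  have h7 : ((onArc x n a c b ∧ onArc x n c a d) ∨ (onArc x n a c d ∧ onArc x n c a b)) ∨
      ((onArc x n a d b ∧ onArc x n d a c) ∨ (onArc x n a d c ∧ onArc x n d a b)) :=
    h'.imp (fun h => h.2.2) (fun h => h.2.2)
  simp only [onArc, ha, hb, hc, hd, true_and] at hal h7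
  split_ifs at hal h7 <;> omega

/-- a path in a set is a path in the set of the points connected to one of its points -/
theorem TA6_cluster {W : Set V} {u v : V} (h : Con W u v) : Con {w | Con W u w} u v := by
  refine Con.induct h (fun a => Con {w | Con W u w} u a) (DP.Con.refl (DP.Con.refl h.1)) ?_
  intro a b ha hb hab hua h1
  exact h1.tail hab (hua.tail hab hb)

/-- a path in a set of one colour is a monochromatic path -/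
theorem TA6_mono {W R : Set V} {c : V → Bool} {k : Bool} {u v : V}
    (hW : ∀ w ∈ W, w ∈ R ∧ c w = k) (h : Con W u v) : Conn c k R u v := by
  unfold Conn
  exact DP.Con.mono hW h

/-- the case of the inner circle -/
theorem TA6_inner (hIF : IF_stmt) (hAC : AC_stmt) (x : V) (m n : ℕ) (A₁ A₂ A₃ : Set V)
    (p₁ p₂ p₃ q₃ w₁ w₂ w₃ : V) (hx : Even (x.1 + x.2)) (hm : 1 ≤ m) (hmn : m < n)
    (hA₁ : A₁ ⊆ ann x m n) (hA₂ : A₂ ⊆ ann x m n) (hA₃ : A₃ ⊆ ann x m n)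
    (h23 : Disjoint A₂ A₃) (h13 : Disjoint A₁ A₃) (hal : alt x m p₁ p₃ p₂ q₃)
    (hw₁ : w₁ ∈ bd x n) (hw₂ : w₂ ∈ bd x n) (hw₃ : w₃ ∈ bd x n) (c₁ : Con A₁ p₁ w₁)
    (c₂ : Con A₂ p₂ w₂) (c₃ : Con A₃ p₃ w₃) (c₄ : Con A₃ p₃ q₃) : False := by
  classical
  obtain ⟨⟨b1, b2, b3, b4⟩, -, -⟩ := id hal
  obtain ⟨c, hc⟩ : ∃ c : V → Bool, ∀ v, c v = decide (v ∈ A₁ ∨ v ∈ A₂) := ⟨_, fun _ => rfl⟩
  have t1 : ∀ v ∈ A₁, c v = true := fun v hv => by rw [hc]; simp [hv]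
  have t2 : ∀ v ∈ A₂, c v = true := fun v hv => by rw [hc]; simp [hv]
  have t3 : ∀ v ∈ A₃, c v = false := fun v hv => by
    rw [hc]
    have h1 : v ∉ A₁ := fun h => Set.disjoint_left.1 h13 h hv
    have h2 : v ∉ A₂ := fun h => Set.disjoint_left.1 h23 h hv
    simp [h1, h2]
  have m1 : ∀ {u v : V}, Con A₁ u v → Conn c true (ann x m n) u v := fun h =>
    TA6_mono (fun w hw => ⟨hA₁ hw, t1 w hw⟩) h
  have m2 : ∀ {u v : V}, Con A₂ u v → Conn c true (ann x m n) u v := fun h =>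
    TA6_mono (fun w hw => ⟨hA₂ hw, t2 w hw⟩) h
  have m3 : ∀ {u v : V}, Con A₃ u v → Conn c false (ann x m n) u v := fun h =>
    TA6_mono (fun w hw => ⟨hA₃ hw, t3 w hw⟩) h
  have k1 : c p₁ = true := t1 _ c₁.mem_left
  have k2 : c p₂ = true := t2 _ c₂.mem_left
  have k3 : c p₃ = false := t3 _ c₃.mem_left
  have k4 : c q₃ = false := t3 _ c₄.mem_right
  refine hIF c false x m n hx hm hmn p₃ p₂ q₃ p₁ (hAC.2.2.1 x m _ _ _ _ hm hal) k3 k2 k4 k1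
    ⟨b2, w₃, hw₃, ?_⟩ ⟨b3, w₂, hw₂, ?_⟩ ⟨b4, w₃, hw₃, ?_⟩ ⟨b1, w₁, hw₁, ?_⟩ (m3 c₄)
  · rw [k3]; exact m3 c₃
  · rw [k2]; exact m2 c₂
  · rw [k4]; exact m3 (c₄.symm.trans c₃)
  · rw [k1]; exact m1 c₁

/-- transport of the alternation from the inner circle to the circle of radius `r` -/
theorem TA6_transport (hOT : OT_stmt) (x : V) (m r : ℕ) (A₁ A₂ A₃ : Set V)
    (p₁ p₂ p₃ q₃ u₁ u₂ u₃ v₃ : V) (hx : Even (x.1 + x.2)) (hm : 1 ≤ m) (hmr : m < r)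
    (h12 : Disjoint A₁ A₂) (h23 : Disjoint A₂ A₃) (h13 : Disjoint A₁ A₃)
    (hal : alt x m p₁ p₂ p₃ q₃) (hu₁ : u₁ ∈ bd x r) (hu₂ : u₂ ∈ bd x r) (hu₃ : u₃ ∈ bd x r)
    (hv₃ : v₃ ∈ bd x r) (c₁ : Con (A₁ ∩ ann x m r) p₁ u₁) (c₂ : Con (A₂ ∩ ann x m r) p₂ u₂)
    (c₃ : Con (A₃ ∩ ann x m r) p₃ u₃) (c₄ : Con (A₃ ∩ ann x m r) q₃ v₃)
    (hno : ¬ Con (A₃ ∩ ann x m r) u₃ v₃) : alt x r u₁ u₂ u₃ v₃ := by
  classical
  obtain ⟨c, hc⟩ : ∃ c : V → Bool, ∀ v, c v = decide (v ∈ A₁ ∨ Con (A₃ ∩ ann x m r) u₃ v) :=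
    ⟨_, fun _ => rfl⟩
  have t1 : ∀ v ∈ A₁, c v = true := fun v hv => by rw [hc]; simp [hv]
  have t2 : ∀ v ∈ A₂, c v = false := fun v hv => by
    rw [hc]
    have h1 : v ∉ A₁ := fun h => Set.disjoint_left.1 h12 h hv
    have h2 : ¬ Con (A₃ ∩ ann x m r) u₃ v := fun h =>
      Set.disjoint_left.1 h23 hv h.mem_right.1
    simp [h1, h2]
  have t3 : ∀ v, Con (A₃ ∩ ann x m r) u₃ v → c v = true := fun v hv => by rw [hc]; simp [hv]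
  have t4 : ∀ v, Con (A₃ ∩ ann x m r) v₃ v → c v = false := fun v hv => by
    rw [hc]
    have h1 : v ∉ A₁ := fun h => Set.disjoint_left.1 h13 h hv.mem_right.1
    have h2 : ¬ Con (A₃ ∩ ann x m r) u₃ v := fun h => hno (h.trans hv.symm)
    simp [h1, h2]
  have m1 : Conn c true (ann x m r) p₁ u₁ := TA6_mono (fun w hw => ⟨hw.2, t1 w hw.1⟩) c₁
  have m2 : Conn c false (ann x m r) p₂ u₂ := TA6_mono (fun w hw => ⟨hw.2, t2 w hw.1⟩) c₂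
  have m3 : Conn c true (ann x m r) p₃ u₃ := by
    refine (TA6_mono ?_ (TA6_cluster c₃.symm)).symm
    intro w hw
    have hw' : Con (A₃ ∩ ann x m r) u₃ w := hw
    exact ⟨hw'.mem_right.2, t3 w hw'⟩
  have m4 : Conn c false (ann x m r) q₃ v₃ := by
    refine (TA6_mono ?_ (TA6_cluster c₄.symm)).symm
    intro w hw
    have hw' : Con (A₃ ∩ ann x m r) v₃ w := hw
    exact ⟨hw'.mem_right.2, t4 w hw'⟩
  exact hOT c true x m r hx hm hmr p₁ p₂ p₃ q₃ u₁ u₂ u₃ v₃ hal m1.colour_left m2.colour_left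
    m3.colour_left m4.colour_left hu₁ hu₂ hu₃ hv₃ m1 m2 m3 m4

theorem TA6_main (hIF : IF_stmt) (hOF : OF_stmt) (hOT : OT_stmt) (hAC : AC_stmt) (hPO : PO_stmt)
    (x : V) (m r n : ℕ) (A₁ A₂ A₃ : Set V) (u₁ u₂ u₃ v₃ : V) (hx : Even (x.1 + x.2))
    (hm : 1 ≤ m) (hmn : m < n) (hmr : m ≤ r) (hA₁ : A₁ ⊆ ann x m n) (hA₂ : A₂ ⊆ ann x m n)
    (hA₃ : A₃ ⊆ ann x m n) (h12 : Disjoint A₁ A₂) (h23 : Disjoint A₂ A₃) (h13 : Disjoint A₁ A₃)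
    (hu₁ : u₁ ∈ bd x r) (hu₂ : u₂ ∈ bd x r) (hu₃ : u₃ ∈ bd x r) (hv₃ : v₃ ∈ bd x r)
    (i₁ : ∃ p ∈ bd x m, Con (A₁ ∩ ann x m r) p u₁) (i₂ : ∃ p ∈ bd x m, Con (A₂ ∩ ann x m r) p u₂)
    (i₃ : ∃ p ∈ bd x m, Con (A₃ ∩ ann x m r) p u₃) (i₄ : ∃ p ∈ bd x m, Con (A₃ ∩ ann x m r) p v₃)
    (o₁ : ∃ w ∈ bd x n, Con A₁ u₁ w) (o₂ : ∃ w ∈ bd x n, Con A₂ u₂ w)
    (o₃ : ∃ w ∈ bd x n, Con A₃ u₃ w) (hcon : Con A₃ u₃ v₃) (hal : alt x r u₁ u₃ u₂ v₃) :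
    False := by
  classical
  obtain ⟨w₁, hw₁, d₁⟩ := o₁
  obtain ⟨w₂, hw₂, d₂⟩ := o₂
  obtain ⟨w₃, hw₃, d₃⟩ := o₃
  rcases hmr.eq_or_lt with rfl | hlt
  · exact TA6_inner hIF hAC x m n A₁ A₂ A₃ u₁ u₂ u₃ v₃ w₁ w₂ w₃ hx hm hmn hA₁ hA₂ hA₃ h23 h13
      hal hw₁ hw₂ hw₃ d₁ d₂ d₃ hcon
  obtain ⟨p₁, hp₁, c₁⟩ := i₁
  obtain ⟨p₂, hp₂, c₂⟩ := i₂
  obtain ⟨p₃, hp₃, c₃⟩ := i₃
  obtain ⟨q₃, hq₃, c₄⟩ := i₄
  have hr : 1 ≤ r := hm.trans hmr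
  by_cases hno : Con (A₃ ∩ ann x m r) u₃ v₃
  · -- connected inside the radius r
    obtain ⟨c, hc⟩ : ∃ c : V → Bool, ∀ v, c v = decide (v ∈ A₁ ∨ v ∈ A₂) := ⟨_, fun _ => rfl⟩
    have t1 : ∀ v ∈ A₁, c v = true := fun v hv => by rw [hc]; simp [hv]
    have t2 : ∀ v ∈ A₂, c v = true := fun v hv => by rw [hc]; simp [hv]
    have t3 : ∀ v ∈ A₃, c v = false := fun v hv => by
      rw [hc]
      have h1 : v ∉ A₁ := fun h => Set.disjoint_left.1 h13 h hv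
      have h2 : v ∉ A₂ := fun h => Set.disjoint_left.1 h23 h hv
      simp [h1, h2]
    have m1 : Conn c true (ann x m r) u₁ p₁ := (TA6_mono (fun w hw => ⟨hw.2, t1 w hw.1⟩) c₁).symm
    have m2 : Conn c true (ann x m r) u₂ p₂ := (TA6_mono (fun w hw => ⟨hw.2, t2 w hw.1⟩) c₂).symm
    have m3 : Conn c false (ann x m r) u₃ p₃ := (TA6_mono (fun w hw => ⟨hw.2, t3 w hw.1⟩) c₃).symm
    have m4 : Conn c false (ann x m r) v₃ q₃ := (TA6_mono (fun w hw => ⟨hw.2, t3 w hw.1⟩) c₄).symm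
    have m5 : Conn c false (ann x m r) u₃ v₃ := TA6_mono (fun w hw => ⟨hw.2, t3 w hw.1⟩) hno
    refine hOF c false x m r hx hm hlt u₃ u₂ v₃ u₁ (hAC.2.2.1 x r _ _ _ _ hr hal)
      m3.colour_left m2.colour_left m4.colour_left m1.colour_left
      ⟨hu₃, p₃, hp₃, ?_⟩ ⟨hu₂, p₂, hp₂, ?_⟩ ⟨hv₃, q₃, hq₃, ?_⟩ ⟨hu₁, p₁, hp₁, ?_⟩ m5
    · rw [m3.colour_left]; exact m3
    · rw [m2.colour_left]; exact m2
    · rw [m4.colour_left]; exact m4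
    · rw [m1.colour_left]; exact m1
  · have s₁ : Con A₁ p₁ u₁ := c₁.mono Set.inter_subset_left
    have s₂ : Con A₂ p₂ u₂ := c₂.mono Set.inter_subset_left
    have s₃ : Con A₃ p₃ u₃ := c₃.mono Set.inter_subset_left
    have s₄ : Con A₃ q₃ v₃ := c₄.mono Set.inter_subset_left
    have hne : p₃ ≠ q₃ := by
      rintro rfl
      exact hno (c₃.symm.trans c₄)
    have n12 : p₁ ≠ p₂ := by
      rintro rfl
      exact Set.disjoint_left.1 h12 s₁.mem_left s₂.mem_left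
    have n13 : p₁ ≠ p₃ := by
      rintro rfl
      exact Set.disjoint_left.1 h13 s₁.mem_left s₃.mem_left
    have n14 : p₁ ≠ q₃ := by
      rintro rfl
      exact Set.disjoint_left.1 h13 s₁.mem_left s₄.mem_left
    have n23 : p₂ ≠ p₃ := by
      rintro rfl
      exact Set.disjoint_left.1 h23 s₂.mem_left s₃.mem_left
    have n24 : p₂ ≠ q₃ := by
      rintro rfl
      exact Set.disjoint_left.1 h23 s₂.mem_left s₄.mem_left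
    rcases TA6_tri hPO x m p₁ p₂ p₃ q₃ hm hp₁ hp₂ hp₃ hq₃ n12 n13 n14 n23 n24 hne with h | h | h
    · exact TA6_inner hIF hAC x m n A₁ A₂ A₃ p₁ p₂ p₃ q₃ w₁ w₂ w₃ hx hm hmn hA₁ hA₂ hA₃ h23 h13
        h hw₁ hw₂ hw₃ (s₁.trans d₁) (s₂.trans d₂) (s₃.trans d₃) ((s₃.trans hcon).trans s₄.symm)
    · have h1 := TA6_transport hOT x m r A₁ A₂ A₃ p₁ p₂ p₃ q₃ u₁ u₂ u₃ v₃ hx hm hlt h12 h23 h13 h
        hu₁ hu₂ hu₃ hv₃ c₁ c₂ c₃ c₄ hno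
      exact TA6_excl hPO x r u₁ u₂ u₃ v₃ hr hal (Or.inl h1)
    · have h1 := TA6_transport hOT x m r A₁ A₂ A₃ p₁ p₂ q₃ p₃ u₁ u₂ v₃ u₃ hx hm hlt h12 h23 h13 h
        hu₁ hu₂ hv₃ hu₃ c₁ c₂ c₄ c₃ (fun h => hno h.symm)
      exact TA6_excl hPO x r u₁ u₂ u₃ v₃ hr hal (Or.inr h1)

theorem TA6 (hIF : IF_stmt) (hOF : OF_stmt) (hOT : OT_stmt) (hAC : AC_stmt) (hPO : PO_stmt) :
    TA6_stmt := by
  intro x m r n A₁ A₂ A₃ u₁ u₂ u₃ v₃ hx hm hmn hmr _ hA₁ hA₂ hA₃ h12 h23 h13 hu₁ hu₂ hu₃ hv₃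
    i₁ i₂ i₃ i₄ o₁ o₂ o₃ hcon
  have hr : 1 ≤ r := hm.trans hmr
  have a₁ : u₁ ∈ A₁ := i₁.choose_spec.2.mem_right.1
  have a₂ : u₂ ∈ A₂ := i₂.choose_spec.2.mem_right.1
  have a₃ : u₃ ∈ A₃ := i₃.choose_spec.2.mem_right.1
  have a₄ : v₃ ∈ A₃ := i₄.choose_spec.2.mem_right.1
  have n12 : u₁ ≠ u₂ := by
    rintro rfl
    exact Set.disjoint_left.1 h12 a₁ a₂
  have n13 : u₁ ≠ u₃ := by
    rintro rfl
    exact Set.disjoint_left.1 h13 a₁ a₃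
  have n14 : u₁ ≠ v₃ := by
    rintro rfl
    exact Set.disjoint_left.1 h13 a₁ a₄
  have n23 : u₂ ≠ u₃ := by
    rintro rfl
    exact Set.disjoint_left.1 h23 a₂ a₃
  have n24 : u₂ ≠ v₃ := by
    rintro rfl
    exact Set.disjoint_left.1 h23 a₂ a₄
  by_contra hiff
  have n34 : u₃ ≠ v₃ := by
    rintro rfl
    exact hiff Iff.rfl
  have hnd : [u₁, u₃, u₂, v₃].Nodup := by simp [n12, n13, n14, n23.symm, n24, n34]
  have harc : (onArc x r u₁ u₂ u₃ ∧ onArc x r u₂ u₁ v₃) ∨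
      (onArc x r u₁ u₂ v₃ ∧ onArc x r u₂ u₁ u₃) := by
    have g1 := hAC.1 x r u₁ u₂ u₃ hr hu₁ hu₂ hu₃ n12
    have g2 := hAC.1 x r u₁ u₂ v₃ hr hu₁ hu₂ hv₃ n12
    tauto
  exact TA6_main hIF hOF hOT hAC hPO x m r n A₁ A₂ A₃ u₁ u₂ u₃ v₃ hx hm hmn hmr hA₁ hA₂ hA₃ h12
    h23 h13 hu₁ hu₂ hu₃ hv₃ i₁ i₂ i₃ i₄ o₁ o₂ o₃ hcon ⟨⟨hu₁, hu₃, hu₂, hv₃⟩, hnd, harc⟩

end TP.TA
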